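import Pool.Agent.Lib.MP_b090c9_co.Wrap

set_option autoImplicit false

namespace Pool.Agent.Results.MP_b090c9_co.RegularNonagon

open MeasureTheory Set

/-- the Euclidean plane -/
abbrev Plane : Type := EuclideanSpace ℝ (Fin 2)

/-- a convex disc: a compact convex set with nonempty interior -/
def IsConvexDisc (C : Set Plane) : Prop :=
  IsCompact C ∧ Convex ℝ C ∧ (interior C).Nonempty

/-- a packing of the plane with congruent copies of `C`: a set of images of `C` under isometries
of the plane whose interiors are pairwise disjoint -/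
def IsPacking (C : Set Plane) (P : Set (Set Plane)) : Prop :=
  (∀ K ∈ P, ∃ f : Plane ≃ᵢ Plane, K = f '' C) ∧
    P.Pairwise (fun K K' => Disjoint (interior K) (interior K'))

/-- upper density: the limsup, as r tends to infinity, of the total area of the members of the
packing contained in the disc of radius r about the origin, divided by `π * r ^ 2` -/
noncomputable def upperDensity (P : Set (Set Plane)) : ENNReal :=
  Filter.limsup (fun r : ℝ =>
    (∑' K : {K : Set Plane // K ∈ P ∧ K ⊆ Metric.closedBall 0 r}, volume K.1) /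
      ENNReal.ofReal (Real.pi * r ^ 2)) Filter.atTop

/-- packing density: the supremum of the upper densities of all packings with congruent copies -/
noncomputable def packingDensity (C : Set Plane) : ENNReal :=
  ⨆ P : {P : Set (Set Plane) // IsPacking C P}, upperDensity P.1

/-- the packing density of the smoothed octagon -/
noncomputable def reinhardtConst : ℝ := (8 - 4 * √2 - Real.log 2) / (2 * √2 - 1)

/-- the regular 9-gon with inradius 1 -/
def nonagon : Set Plane :=
  {x | ∀ k : Fin 9, x 0 * Real.cos (2 * Real.pi * k / 9) + x 1 * Real.sin (2 * Real.pi * k / 9) ≤ 1}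

/-- identification of the complex plane with the Euclidean plane -/
noncomputable def toPlane : ℂ ≃ₗᵢ[ℝ] Plane := Complex.orthonormalBasisOneI.repr

lemma toPlane_zero (z : ℂ) : toPlane z 0 = z.re := by
  simp [toPlane]

lemma toPlane_one (z : ℂ) : toPlane z 1 = z.im := by
  simp [toPlane]

lemma nonagon_eq : nonagon = toPlane '' (Nonagon.bodyc 0 0) := by
  have key : ∀ z : ℂ, toPlane z ∈ nonagon ↔ z ∈ Nonagon.bodyc 0 0 := by
    intro z
    have h : ∀ k : ZMod 9, Nonagon.dot (Nonagon.nv 0 k) (z - 0) =
        z.re * Real.cos (2 * Real.pi * (k.val : ℝ) / 9) +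
          z.im * Real.sin (2 * Real.pi * (k.val : ℝ) / 9) := by
      intro k
      unfold Nonagon.dot Nonagon.nv
      rw [Nonagon.e_re, Nonagon.e_im, sub_zero, zero_add]
      ring
    constructor
    · intro hz k
      have := hz k
      rw [toPlane_zero, toPlane_one] at this
      rw [h k]
      exact this
    · intro hz k
      rw [toPlane_zero, toPlane_one]
      exact le_trans (le_of_eq (h k).symm) (hz k)
  ext x
  constructor
  · intro hx
    obtain ⟨z, rfl⟩ := toPlane.surjective x
    exact ⟨z, (key z).mp hx, rfl⟩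
  · rintro ⟨z, hz, rfl⟩
    exact (key z).mpr hz

lemma convexDisc_nonagon : IsConvexDisc nonagon := by
  rw [nonagon_eq]
  refine ⟨?_, ?_, ?_⟩
  · exact (Nonagon.isCompact_bodyc 0 0).image toPlane.continuous
  · exact (Nonagon.convex_bodyc 0 0).linear_image toPlane.toLinearEquiv.toLinearMap
  · have h1 : IsOpen (toPlane '' (Nonagon.body 0 0)) :=
      toPlane.toHomeomorph.isOpenMap _ (Nonagon.isOpen_body 0 0)
    refine ⟨toPlane 0, ?_⟩
    apply interior_maximal (image_mono (Nonagon.body_subset_bodyc 0 0)) h1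
    exact ⟨0, Nonagon.center_mem_body 0 0, rfl⟩

/-- every congruent copy comes from the complex model -/
lemma copy_eq (f : Plane ≃ᵢ Plane) : ∃ c ρ, f '' nonagon = toPlane '' (Nonagon.bodyc c ρ) := by
  obtain ⟨c, ρ, h⟩ := Nonagon.isometry_image
    ((toPlane.toIsometryEquiv.trans f).trans toPlane.symm.toIsometryEquiv)
  refine ⟨c, ρ, ?_⟩
  rw [← h, nonagon_eq, image_image, image_image]
  apply image_congr
  intro z _
  simp

lemma volume_copy (c : ℂ) (ρ : ℝ) :
    volume (toPlane '' (Nonagon.bodyc c ρ)) = ENNReal.ofReal Nonagon.A0 := by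
  rw [← Nonagon.volume_bodyc c ρ]
  have h := toPlane.symm.measurePreserving
  have h2 : toPlane '' (Nonagon.bodyc c ρ) = toPlane.symm ⁻¹' (Nonagon.bodyc c ρ) := by
    ext x
    constructor
    · rintro ⟨z, hz, rfl⟩
      simpa using hz
    · intro hx
      exact ⟨toPlane.symm x, hx, by simp⟩
  rw [h2, h.measure_preimage (Nonagon.isClosed_bodyc c ρ).measurableSet.nullMeasurableSet]

lemma body_interior (c : ℂ) (ρ : ℝ) :
    toPlane '' (Nonagon.body c ρ) ⊆ interior (toPlane '' (Nonagon.bodyc c ρ)) := by
  apply interior_maximal (image_mono (Nonagon.body_subset_bodyc c ρ))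
  exact toPlane.toHomeomorph.isOpenMap _ (Nonagon.isOpen_body c ρ)

lemma sum_bound {P : Set (Set Plane)} (hP : IsPacking nonagon P) {r : ℝ} (hr : 10 ^ 12 ≤ r) :
    ∑' K : {K : Set Plane // K ∈ P ∧ K ⊆ Metric.closedBall 0 r}, volume K.1 ≤
      ENNReal.ofReal (0.9021 * (Real.pi * r ^ 2)) := by
  classical
  have hex : ∀ K : {K : Set Plane // K ∈ P ∧ K ⊆ Metric.closedBall 0 r},
      ∃ (c : ℂ) (ρ : ℝ), K.1 = toPlane '' (Nonagon.bodyc c ρ) := by
    intro K
    obtain ⟨f, hf⟩ := hP.1 K.1 K.2.1
    obtain ⟨c, ρ, h⟩ := copy_eq f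
    exact ⟨c, ρ, by rw [hf, h]⟩
  choose cen rot hK using hex
  rw [ENNReal.tsum_eq_iSup_sum]
  apply iSup_le
  intro s
  have h1 : ∑ K ∈ s, volume K.1 = ENNReal.ofReal ((Fintype.card s : ℝ) * Nonagon.A0) := by
    rw [Finset.sum_congr rfl (fun K _ => by rw [hK K, volume_copy])]
    rw [Finset.sum_const, nsmul_eq_mul, ENNReal.ofReal_mul (Nat.cast_nonneg _),
      ENNReal.ofReal_natCast, Fintype.card_coe]
  rw [h1]
  apply ENNReal.ofReal_le_ofReal
  apply Nonagon.ratio_bound (ι := s) hr (cen := fun K => cen K.1) (rot := fun K => rot K.1)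
  · intro K K' hne
    have hne' : K.1.1 ≠ K'.1.1 := fun h => hne (Subtype.ext (Subtype.ext h))
    have h2 := hP.2 K.1.2.1 K'.1.2.1 hne'
    rw [Set.disjoint_left]
    intro x hx hx'
    have e1 : toPlane x ∈ interior K.1.1 := by
      rw [hK K.1]; exact body_interior _ _ ⟨x, hx, rfl⟩
    have e2 : toPlane x ∈ interior K'.1.1 := by
      rw [hK K'.1]; exact body_interior _ _ ⟨x, hx', rfl⟩
    exact Set.disjoint_left.mp h2 e1 e2
  · intro K
    have h3 : toPlane (cen K.1) ∈ K.1.1 := by
      rw [hK K.1]
      exact ⟨_, Nonagon.body_subset_bodyc _ _ (Nonagon.center_mem_body _ _), rfl⟩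
    have h4 := K.1.2.2 h3
    rw [Metric.mem_closedBall, dist_zero_right, LinearIsometryEquiv.norm_map] at h4
    exact h4

lemma density_bound : packingDensity nonagon ≤ ENNReal.ofReal 0.9021 := by
  unfold packingDensity
  apply iSup_le
  rintro ⟨P, hP⟩
  unfold upperDensity
  apply Filter.limsup_le_of_le
  · isBoundedDefault
  filter_upwards [Filter.eventually_ge_atTop ((10:ℝ) ^ 12)] with r hr
  have hr0 : (0:ℝ) < r := lt_of_lt_of_le (by norm_num) hr
  have hpos : 0 < Real.pi * r ^ 2 := by positivity
  apply ENNReal.div_le_of_le_mul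
  rw [← ENNReal.ofReal_mul (by norm_num)]
  exact sum_bound hP hr

lemma const_bound : (0.9021 : ℝ) < reinhardtConst := by
  have h1 := Real.log_two_lt_d9
  have h2 : √2 < 1.4142136 := by
    rw [Real.sqrt_lt' (by norm_num)]; norm_num
  have h3 : 1.414 < √2 := by
    rw [Real.lt_sqrt (by norm_num)]; norm_num
  unfold reinhardtConst
  rw [lt_div_iff₀ (by linarith)]
  linarith

/-- The regular 9-gon is a convex disc whose packing density is at most 0.9021, which is less than
the Reinhardt constant. -/
theorem result : IsConvexDisc nonagon ∧ packingDensity nonagon ≤ ENNReal.ofReal 0.9021 ∧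
    packingDensity nonagon < ENNReal.ofReal reinhardtConst := by
  refine ⟨convexDisc_nonagon, density_bound, lt_of_le_of_lt density_bound ?_⟩
  rw [ENNReal.ofReal_lt_ofReal_iff (lt_trans (by norm_num) const_bound)]
  exact const_bound

end Pool.Agent.Results.MP_b090c9_co.RegularNonagon
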